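import Pool.Agent.Helper73.RT.Defs
import Pool.Agent.Helper85.RT.LowerTail
import Pool.Agent.Helper37.RT.PairsOf

/-!
# RT-A8a : few colourings have a large set with few red edges
-/

set_option autoImplicit false

open Finset

namespace Pool.Agent.Helper73.RT

/-- union bound -/
theorem ncard_exists_le_a8a {α β : Type} [Fintype α] (s : Finset β) (P : β → α → Prop) (B : ℝ)
    (h : ∀ b ∈ s, (({f | P b f} : Set α).ncard : ℝ) ≤ B) :
    (({f | ∃ b ∈ s, P b f} : Set α).ncard : ℝ) ≤ s.card * B := by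
  classical
  induction s using Finset.induction_on with
  | empty => simp
  | @insert b s hb ih =>
    have h1 : ({f | ∃ c ∈ insert b s, P c f} : Set α) = {f | P b f} ∪ {f | ∃ c ∈ s, P c f} := by
      ext f
      simp
    have h2 : (({f | ∃ c ∈ insert b s, P c f} : Set α).ncard : ℝ) ≤
        (({f | P b f} : Set α).ncard : ℝ) + (({f | ∃ c ∈ s, P c f} : Set α).ncard : ℝ) := by
      rw [h1]
      exact_mod_cast Set.ncard_union_le _ _
    have h3 := h b (Finset.mem_insert_self b s)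
    have h4 := ih fun c hc => h c (Finset.mem_insert_of_mem hc)
    rw [Finset.card_insert_of_notMem hb]
    push_cast
    linarith

theorem lt_two_pow_ell_a8a (t : ℕ) : t < 2 ^ ell t := Nat.lt_pow_succ_log_self one_lt_two t

/-- RT-A8a. Few colourings have a large set with few red edges (needs A3, A6). -/
theorem bad_a (t : ℕ) (ht : 10 ≤ t) :
    ({f : Sym2 (Fin (t ^ 40)) → Fin (30 * t ^ 20) |
        ∃ J : Finset (Fin (t ^ 40)), J.card = aT t ∧
          ((pairsOf J J).filter fun e => (f e).val < 1).card ≤ 120 * ell t * aT t}.ncard : ℝ)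
      < ((30 * t ^ 20 : ℕ) : ℝ) ^ Fintype.card (Sym2 (Fin (t ^ 40))) / 5 := by
  classical
  have hQ : 0 < 30 * t ^ 20 := by positivity
  have hl : 1 ≤ ell t := by unfold ell; omega
  set a := aT t with ha
  set l := ell t with hl'
  have hadef : a = 43200 * l * t ^ 20 := rfl
  have htp : 1 ≤ t ^ 20 := Nat.one_le_pow _ _ (by omega)
  have ha1 : 43200 ≤ a := by
    rw [hadef]
    calc 43200 = 43200 * 1 * 1 := by norm_num
      _ ≤ 43200 * l * t ^ 20 := by gcongr
  -- one set `J`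
  set B : ℝ := 2 ^ (120 * l * a) * Real.exp (-(360 * l * (a - 1))) *
    ((30 * t ^ 20 : ℕ) : ℝ) ^ Fintype.card (Sym2 (Fin (t ^ 40))) with hB
  have hone : ∀ J ∈ (Finset.univ : Finset (Fin (t ^ 40))).powersetCard a,
      (({f : Sym2 (Fin (t ^ 40)) → Fin (30 * t ^ 20) |
        ((pairsOf J J).filter fun e => (f e).val < 1).card ≤ 120 * l * a} : Set _).ncard : ℝ)
        ≤ B := by
    intro J hJ
    have hJc : J.card = a := (Finset.mem_powersetCard.1 hJ).2
    refine (lower_tail hQ 1 (by omega) (pairsOf J J) (120 * l * a)).trans (le_of_eq ?_)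
    rw [hB, pairsOf_self_card, hJc]
    have hch : ((a.choose 2 : ℕ) : ℝ) = (a : ℝ) * (a - 1) / 2 := by
      rw [Nat.cast_choose_two]
    have h1 : ((1 : ℕ) : ℝ) * ((a.choose 2 : ℕ) : ℝ) / (2 * ((30 * t ^ 20 : ℕ) : ℝ)) =
        360 * l * (a - 1) := by
      rw [hch]
      have h2 : ((t : ℝ)) ^ 20 ≠ 0 := by positivity
      have h3 : (a : ℝ) = 43200 * l * t ^ 20 := by rw [hadef]; push_cast; ring
      have h4 : ((30 * t ^ 20 : ℕ) : ℝ) = 30 * (t : ℝ) ^ 20 := by push_cast; ring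
      rw [h4]
      have h5 : (a : ℝ) * ((a : ℝ) - 1) / 2 = (43200 * l * t ^ 20) * ((a : ℝ) - 1) / 2 := by
        nth_rewrite 1 [h3]; rfl
      rw [h5]
      field_simp
      ring
    rw [h1]
  have hsub : ({f : Sym2 (Fin (t ^ 40)) → Fin (30 * t ^ 20) |
        ∃ J : Finset (Fin (t ^ 40)), J.card = a ∧
          ((pairsOf J J).filter fun e => (f e).val < 1).card ≤ 120 * l * a} : Set _) ⊆
      {f | ∃ J ∈ (Finset.univ : Finset (Fin (t ^ 40))).powersetCard a,
        ((pairsOf J J).filter fun e => (f e).val < 1).card ≤ 120 * l * a} := by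
    rintro f ⟨J, hJ, h⟩
    exact ⟨J, Finset.mem_powersetCard.2 ⟨Finset.subset_univ _, hJ⟩, h⟩
  have hle := (Nat.cast_le (α := ℝ)).2 (Set.ncard_le_ncard hsub (Set.toFinite _))
  have hun := ncard_exists_le_a8a ((Finset.univ : Finset (Fin (t ^ 40))).powersetCard a)
    (fun J (f : Sym2 (Fin (t ^ 40)) → Fin (30 * t ^ 20)) =>
      ((pairsOf J J).filter fun e => (f e).val < 1).card ≤ 120 * l * a) B hone
  refine lt_of_le_of_lt (hle.trans hun) ?_
  have hcard : (((Finset.univ : Finset (Fin (t ^ 40))).powersetCard a).card : ℝ) ≤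
      2 ^ (40 * l * a) := by
    rw [Finset.card_powersetCard, Finset.card_univ, Fintype.card_fin]
    have h1 : (t ^ 40).choose a ≤ (t ^ 40) ^ a := Nat.choose_le_pow _ _
    have h2 : (t ^ 40) ^ a ≤ ((2 ^ l) ^ 40) ^ a := by
      gcongr
      exact (lt_two_pow_ell_a8a t).le
    have h3 : ((2 ^ l) ^ 40) ^ a = 2 ^ (40 * l * a) := by
      rw [← pow_mul, ← pow_mul]; ring_nf
    exact_mod_cast (h1.trans h2).trans (le_of_eq h3)
  set K : ℝ := ((30 * t ^ 20 : ℕ) : ℝ) ^ Fintype.card (Sym2 (Fin (t ^ 40))) with hK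
  have hKpos : 0 < K := by rw [hK]; exact pow_pos (by exact_mod_cast hQ) _
  have hBnn : 0 ≤ B := by rw [hB]; positivity
  refine lt_of_le_of_lt (mul_le_mul_of_nonneg_right hcard hBnn) ?_
  have hkey : (2 : ℝ) ^ (40 * l * a) * (2 ^ (120 * l * a) * Real.exp (-(360 * l * (a - 1)))) <
      1 / 5 := by
    have h1 : (2 : ℝ) ^ (40 * l * a) * 2 ^ (120 * l * a) = 2 ^ (160 * l * a) := by
      rw [← pow_add]; ring_nf
    rw [← mul_assoc, h1]
    have h2 : (2 : ℝ) ^ (160 * l * a) = Real.exp (Real.log 2 * ((160 * l * a : ℕ) : ℝ)) := by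
      rw [mul_comm (Real.log 2), Real.exp_nat_mul, Real.exp_log (by norm_num)]
    rw [h2, ← Real.exp_add]
    have h3 : Real.log 2 < 0.6931471808 := Real.log_two_lt_d9
    have h4 : (1 : ℝ) ≤ l := by exact_mod_cast hl
    have h5 : (43200 : ℝ) ≤ a := by exact_mod_cast ha1
    have h6 : Real.log 2 * ((160 * l * a : ℕ) : ℝ) + -(360 * l * (a - 1)) ≤ -2 := by
      push_cast
      have h7 : Real.log 2 * (160 * l * a) ≤ 0.6931471808 * (160 * l * a) := by
        have : (0 : ℝ) ≤ 160 * l * a := by positivity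
        nlinarith
      nlinarith [mul_nonneg (by linarith : (0 : ℝ) ≤ (l : ℝ) - 1)
        (by linarith : (0 : ℝ) ≤ (a : ℝ) - 43200)]
    refine lt_of_le_of_lt (Real.exp_le_exp.2 h6) ?_
    rw [Real.exp_neg, inv_lt_comm₀ (Real.exp_pos 2) (by norm_num)]
    have h8 : (2.7182818283 : ℝ) < Real.exp 1 := Real.exp_one_gt_d9
    have h9 : Real.exp 2 = Real.exp 1 * Real.exp 1 := by rw [← Real.exp_add]; norm_num
    rw [h9]
    nlinarith
  calc (2 : ℝ) ^ (40 * l * a) * B
      = (2 : ℝ) ^ (40 * l * a) * (2 ^ (120 * l * a) * Real.exp (-(360 * l * (a - 1)))) * K := by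
        rw [hB]; ring
    _ < 1 / 5 * K := mul_lt_mul_of_pos_right hkey hKpos
    _ = K / 5 := by ring

end Pool.Agent.Helper73.RT
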